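import Pool.Agent.Y791.LP.Stm

/-!
A large exponent lies above a gap (helper454, job LX-PIG).
-/

set_option autoImplicit false

open Finset

namespace Pool.Agent.Y454.LP.Pig

open Pool.Agent.Y791.LP

theorem main : S_PIG := by
  intro ι _ _ G k j₀ h
  have hG : 0 < G + 1 := Nat.succ_pos G
  have hN : 0 < Fintype.card ι := Fintype.card_pos_iff.2 ⟨j₀⟩
  have hc : (((univ : Finset ι).erase j₀).image (fun j => k j / (G + 1))).card <
      (range (Fintype.card ι)).card := by
    refine lt_of_le_of_lt card_image_le ?_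
    rw [card_erase_of_mem (mem_univ _), card_univ, card_range]
    omega
  obtain ⟨i, hi, hni⟩ := exists_mem_notMem_of_card_lt_card hc
  rw [mem_range] at hi
  have h0 : Fintype.card ι ≤ k j₀ / (G + 1) := (Nat.le_div_iff_mul_le hG).2 h
  have hne : ∀ j, k j / (G + 1) ≠ i := by
    intro j hj
    by_cases hjj : j = j₀
    · rw [hjj] at hj
      omega
    · exact hni (mem_image.2 ⟨j, mem_erase.2 ⟨hjj, mem_univ _⟩, hj⟩)
  refine ⟨univ.filter (fun j => (i + 1) * (G + 1) ≤ k j), ?_, fun j hj i' hi' => ?_,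
    fun j hj => ?_⟩
  · rw [mem_filter]
    refine ⟨mem_univ _, le_trans ?_ h⟩
    exact Nat.mul_le_mul_right _ hi
  · rw [mem_filter] at hj
    have h1 : ¬ (i + 1) * (G + 1) ≤ k i' := fun hc => hi' (mem_filter.2 ⟨mem_univ _, hc⟩)
    have h2 : k i' / (G + 1) < i + 1 := (Nat.div_lt_iff_lt_mul hG).2 (not_le.1 h1)
    have h3 : k i' / (G + 1) < i := by
      have := hne i'
      omega
    have h4 : k i' < i * (G + 1) := (Nat.div_lt_iff_lt_mul hG).1 h3
    have h5 : (i + 1) * (G + 1) = i * (G + 1) + (G + 1) := by ring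
    have h6 := hj.2
    omega
  · rw [mem_filter] at hj
    have h5 : (i + 1) * (G + 1) = i * (G + 1) + (G + 1) := by ring
    have h6 := hj.2
    omega

end Pool.Agent.Y454.LP.Pig
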